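import Mathlib
import Pool.Agent.N546.PN.Stm

/-!
# Project PN, part POS: positive proportion from binary forms (helper123)
-/

set_option autoImplicit false
set_option linter.all false

namespace Pool.Agent.N123.PN

open Finset
open Pool.Agent.N546.PN

/-- the index of the second variable -/
def i1 {n : ℕ} (hn : 1 ≤ n) : Fin (n + 1) := ⟨1, by omega⟩

theorem i1_ne {n : ℕ} (hn : 1 ≤ n) : i1 hn ≠ 0 := by
  intro h
  have := congrArg Fin.val h
  simp [i1] at this

/-- the exponents of the monomial `x_0^(e+1-j) x_1^j` -/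
def mj {n e : ℕ} (hn : 1 ≤ n) (j : Fin (e + 2)) : Mon n (e + 1) :=
  ⟨fun i => if i = 0 then e + 1 - j.1 else if i = i1 hn then j.1 else 0, by
    rw [Finset.mem_piAntidiag]
    refine ⟨?_, fun i _ => Finset.mem_univ i⟩
    have h1 : ∀ i : Fin (n + 1), (if i = 0 then e + 1 - j.1 else if i = i1 hn then j.1 else 0) =
        (if i = 0 then e + 1 - j.1 else 0) + (if i = i1 hn then j.1 else 0) := by
      intro i
      by_cases h0 : i = 0
      · rw [if_pos h0, if_pos h0, if_neg, add_zero]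
        rw [h0]
        exact (i1_ne hn).symm
      · rw [if_neg h0, if_neg h0, zero_add]
    have h2 : (Finset.univ.sum fun i : Fin (n + 1) =>
        (if i = 0 then e + 1 - j.1 else if i = i1 hn then j.1 else 0)) = e + 1 := by
      rw [Finset.sum_congr rfl fun i _ => h1 i, Finset.sum_add_distrib, Finset.sum_ite_eq',
        Finset.sum_ite_eq', if_pos (Finset.mem_univ _), if_pos (Finset.mem_univ _)]
      have := j.2
      omega
    exact h2⟩

theorem mj_i1 {n e : ℕ} (hn : 1 ≤ n) (j : Fin (e + 2)) : (mj (e := e) hn j).1 (i1 hn) = j.1 := by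
  show (if i1 hn = 0 then e + 1 - j.1 else if i1 hn = i1 hn then j.1 else 0) = j.1
  rw [if_neg (i1_ne hn), if_pos rfl]

theorem mj_0 {n e : ℕ} (hn : 1 ≤ n) (j : Fin (e + 2)) : (mj (e := e) hn j).1 0 = e + 1 - j.1 := by
  show (if (0 : Fin (n + 1)) = 0 then e + 1 - j.1 else if (0 : Fin (n + 1)) = i1 hn then j.1 else 0) =
    e + 1 - j.1
  rw [if_pos rfl]

theorem mj_inj {n e : ℕ} (hn : 1 ≤ n) : Function.Injective (mj (e := e) hn) := by
  intro j j' h
  apply Fin.ext
  rw [← mj_i1 hn j, ← mj_i1 hn j', h]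

/-- the point `(x, y, 0, …, 0)` -/
def pt {n : ℕ} (hn : 1 ≤ n) {K : Type} [CommRing K] (x y : K) : Fin (n + 1) → K :=
  fun i => if i = 0 then x else if i = i1 hn then y else 0

theorem mem_range {n e : ℕ} (hn : 1 ≤ n) (m : Mon n (e + 1))
    (h : ∀ i, i ≠ 0 → i ≠ i1 hn → m.1 i = 0) : m ∈ Set.range (mj (e := e) hn) := by
  have h0 := (Finset.mem_piAntidiag.mp m.2).1
  have h1 : Finset.univ.sum m.1 = m.1 0 + m.1 (i1 hn) := by
    rw [← Finset.sum_pair (f := m.1) (i1_ne hn).symm]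
    symm
    refine Finset.sum_subset (Finset.subset_univ _) fun i _ hi => ?_
    rw [Finset.mem_insert, Finset.mem_singleton, not_or] at hi
    exact h i hi.1 hi.2
  rw [h0] at h1
  refine ⟨⟨m.1 (i1 hn), by omega⟩, ?_⟩
  apply Subtype.ext
  funext i
  show (if i = 0 then e + 1 - m.1 (i1 hn) else if i = i1 hn then m.1 (i1 hn) else 0) = m.1 i
  by_cases h2 : i = 0
  · rw [if_pos h2, h2]
    omega
  · rw [if_neg h2]
    by_cases h3 : i = i1 hn
    · rw [if_pos h3, h3]
    · rw [if_neg h3, h i h2 h3]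

theorem val_pt {n e : ℕ} (hn : 1 ≤ n) {K : Type} [Field K] (c : Mon n (e + 1) → ℤ) (x y : K) :
    Pool.Agent.N546.PN.val (fun m => (c m : K)) (pt hn x y) = bval (fun j => c (mj hn j)) x y := by
  unfold Pool.Agent.N546.PN.val bval
  symm
  refine Fintype.sum_of_injective (mj hn) (mj_inj hn) _ _ ?_ ?_
  · intro m hm
    have h1 : ∃ i, i ≠ 0 ∧ i ≠ i1 hn ∧ m.1 i ≠ 0 := by
      by_contra hcon
      push Not at hcon
      exact hm (mem_range hn m hcon)
    obtain ⟨i, h2, h3, h4⟩ := h1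
    rw [Finset.prod_eq_zero (Finset.mem_univ i), mul_zero]
    unfold pt
    rw [if_neg h2, if_neg h3, zero_pow h4]
  · intro j
    rw [mul_assoc]
    congr 1
    rw [← Finset.prod_subset (Finset.subset_univ ({0, i1 hn} : Finset (Fin (n + 1)))),
      Finset.prod_pair (i1_ne hn).symm, mj_0, mj_i1]
    · unfold pt
      rw [if_pos rfl, if_neg (i1_ne hn), if_pos rfl]
    · intro i _ hi
      rw [Finset.mem_insert, Finset.mem_singleton, not_or] at hi
      have : (mj hn j).1 i = 0 := by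
        show (if i = 0 then e + 1 - j.1 else if i = i1 hn then j.1 else 0) = 0
        rw [if_neg hi.1, if_neg hi.2]
      rw [this, pow_zero]

/-- the restriction -/
def res {ι : Type} {n : ℕ} {e : ι → ℕ} (hn : 1 ≤ n) (c : (k : ι) → Mon n (e k + 1) → ℤ) :
    (k : ι) → Fin (e k + 2) → ℤ := fun k j => c k (mj hn j)

theorem pt_of {ι : Type} {n : ℕ} {e : ι → ℕ} (hn : 1 ≤ n) (T : Typ ι e)
    (c : (k : ι) → Mon n (e k + 1) → ℤ) {K : Type} [Field K] {x y : K}
    (h : Pt1 T (res hn c) x y) : Pt T (ic c K) (pt hn x y) := by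
  have h1 : ∀ k, Pool.Agent.N546.PN.val (ic c K k) (pt hn x y) = bval (res hn c k) x y := fun k =>
    val_pt hn (c k) x y
  refine ⟨fun k => ?_, ?_⟩
  · rw [h1]
    exact h.1 k
  · have h2 : (fun k => Pool.Agent.N546.PN.val (ic c K k) (pt hn x y)) = fun k => bval (res hn c k) x y :=
      funext h1
    rw [h2]
    exact h.2

theorem loc_of {ι : Type} {n : ℕ} {e : ι → ℕ} (hn : 1 ≤ n) (T : Typ ι e)
    (c : (k : ι) → Mon n (e k + 1) → ℤ) (h : Loc1 T (res hn c)) : LocN T c := by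
  obtain ⟨⟨z, hz⟩, hp⟩ := h
  refine ⟨⟨_, pt_of hn T c hz⟩, fun p hp' => ?_⟩
  obtain ⟨x, y, hxy⟩ := hp p
  exact ⟨_, pt_of hn T c hxy⟩

theorem card_I (H : ℕ) : (Icc (-(H : ℤ)) H).card = 2 * H + 1 := by
  rw [Int.card_Icc]
  omega

theorem card_bx {ι : Type} [Fintype ι] [DecidableEq ι] (n : ℕ) (e : ι → ℕ) (H : ℕ) :
    (bx n e H).card = (2 * H + 1) ^ sz n e := by
  unfold bx sz
  rw [Fintype.card_piFinset, ← Finset.prod_pow_eq_pow_sum]
  refine Finset.prod_congr rfl fun k _ => ?_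
  rw [Fintype.card_piFinset, Finset.prod_const, card_I, Finset.card_univ]

theorem card_bx1 {ι : Type} [Fintype ι] [DecidableEq ι] (e : ι → ℕ) (H : ℕ) :
    (bx1 e H).card = (2 * H + 1) ^ sz1 e := by
  unfold bx1 sz1
  rw [Fintype.card_piFinset, ← Finset.prod_pow_eq_pow_sum]
  refine Finset.prod_congr rfl fun k _ => ?_
  rw [Fintype.card_piFinset, Finset.prod_const, card_I, Finset.card_univ, Fintype.card_fin]

/-- replacing the coefficients of the monomials in `x_0, x_1` -/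
noncomputable def upd {ι : Type} {n : ℕ} {e : ι → ℕ} (hn : 1 ≤ n)
    (c : (k : ι) → Mon n (e k + 1) → ℤ) (g : (k : ι) → Fin (e k + 2) → ℤ) :
    (k : ι) → Mon n (e k + 1) → ℤ := fun k => Function.extend (mj hn) (g k) (c k)

theorem res_upd {ι : Type} {n : ℕ} {e : ι → ℕ} (hn : 1 ≤ n)
    (c : (k : ι) → Mon n (e k + 1) → ℤ) (g : (k : ι) → Fin (e k + 2) → ℤ) :
    res hn (upd hn c g) = g := by
  funext k j
  exact (mj_inj hn).extend_apply _ _ _

theorem upd_upd {ι : Type} {n : ℕ} {e : ι → ℕ} (hn : 1 ≤ n)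
    (c : (k : ι) → Mon n (e k + 1) → ℤ) (g : (k : ι) → Fin (e k + 2) → ℤ) :
    upd hn (upd hn c g) (res hn c) = c := by
  funext k m
  by_cases h : ∃ j, mj hn j = m
  · obtain ⟨j, rfl⟩ := h
    exact (mj_inj hn).extend_apply _ _ _
  · show Function.extend (mj hn) (res hn c k) (upd hn c g k) m = c k m
    rw [Function.extend_apply' _ _ _ h]
    show Function.extend (mj hn) (g k) (c k) m = c k m
    rw [Function.extend_apply' _ _ _ h]

theorem upd_mem {ι : Type} [Fintype ι] [DecidableEq ι] {n : ℕ} {e : ι → ℕ} (hn : 1 ≤ n) {H : ℕ}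
    {c : (k : ι) → Mon n (e k + 1) → ℤ} (hc : c ∈ bx n e H) {g : (k : ι) → Fin (e k + 2) → ℤ}
    (hg : g ∈ bx1 e H) : upd hn c g ∈ bx n e H := by
  unfold bx bx1 at *
  simp only [Fintype.mem_piFinset] at hc hg ⊢
  intro k m
  by_cases h : ∃ j, mj hn j = m
  · obtain ⟨j, rfl⟩ := h
    have : upd hn c g k (mj hn j) = g k j := (mj_inj hn).extend_apply _ _ _
    rw [this]
    exact hg k j
  · have : upd hn c g k m = c k m := Function.extend_apply' _ _ _ h
    rw [this]
    exact hc k m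

theorem res_mem {ι : Type} [Fintype ι] [DecidableEq ι] {n : ℕ} {e : ι → ℕ} (hn : 1 ≤ n) {H : ℕ}
    {c : (k : ι) → Mon n (e k + 1) → ℤ} (hc : c ∈ bx n e H) : res hn c ∈ bx1 e H := by
  unfold bx bx1 at *
  simp only [Fintype.mem_piFinset] at hc ⊢
  intro k j
  exact hc k _

open Classical in
theorem count {ι : Type} [Fintype ι] [DecidableEq ι] {n : ℕ} {e : ι → ℕ} (hn : 1 ≤ n)
    (T : Typ ι e) (H : ℕ) :
    ((bx1 e H).filter (fun g => Loc1 T g)).card * (2 * H + 1) ^ sz n e ≤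
      ((bx n e H).filter (fun c => LocN T c)).card * (2 * H + 1) ^ sz1 e := by
  rw [← card_bx, ← card_bx1, ← Finset.card_product, ← Finset.card_product]
  refine Finset.card_le_card_of_injOn (fun q => (upd hn q.2 q.1, res hn q.2)) ?_ ?_
  · rintro ⟨g, c⟩ hq
    rw [Finset.mem_coe, Finset.mem_product, Finset.mem_filter] at hq
    rw [Finset.mem_coe, Finset.mem_product, Finset.mem_filter]
    refine ⟨⟨upd_mem hn hq.2 hq.1.1, ?_⟩, res_mem hn hq.2⟩
    apply loc_of hn
    rw [res_upd]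
    exact hq.1.2
  · rintro ⟨g, c⟩ _ ⟨g', c'⟩ _ h
    have h1 : upd hn c g = upd hn c' g' := congrArg Prod.fst h
    have h2 : res hn c = res hn c' := congrArg Prod.snd h
    have h3 : g = g' := by
      rw [← res_upd hn c g, ← res_upd hn c' g', h1]
    have h4 : c = c' := by
      rw [← upd_upd hn c g, ← upd_upd hn c' g', h1, h2]
    rw [h3, h4]

theorem pos_ (hlin : S_LIN) : S_POS := by
  classical
  intro n ι _ _ e T hn h
  obtain ⟨c₀, hc₀, H₀, hH⟩ := h
  refine ⟨c₀, hc₀, H₀, fun H hle => ?_⟩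
  have h1 := hH H hle
  have h2 := count hn T H
  have h3 : ((2 * H + 1 : ℕ) : ℝ) ^ sz1 e > 0 := by positivity
  have h4 : ((2 * H + 1 : ℕ) : ℝ) ^ sz n e > 0 := by positivity
  have h5 : (((bx1 e H).filter (fun c => Loc1 T c)).card : ℝ) * ((2 * H + 1 : ℕ) : ℝ) ^ sz n e ≤
      (((bx n e H).filter (fun c => LocN T c)).card : ℝ) * ((2 * H + 1 : ℕ) : ℝ) ^ sz1 e := by
    exact_mod_cast h2
  have h6 := mul_le_mul_of_nonneg_right h1 h4.le
  refine le_of_mul_le_mul_right ?_ h3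
  calc c₀ * ((2 * H + 1 : ℕ) : ℝ) ^ sz n e * ((2 * H + 1 : ℕ) : ℝ) ^ sz1 e =
      c₀ * ((2 * H + 1 : ℕ) : ℝ) ^ sz1 e * ((2 * H + 1 : ℕ) : ℝ) ^ sz n e := by ring
    _ ≤ _ := h6
    _ ≤ _ := h5

end Pool.Agent.N123.PN
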